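import Mathlib

/-!
# Bootstrap percolation on Galton-Watson trees: definitions
-/

open MeasureTheory

namespace N838.BT

section graph

variable {V : Type*}

/-- The set of infected vertices after `n` rounds of `r`-neighbour bootstrap percolation on `G`,
if the vertices in `A` are infected at the beginning. -/
def infected (G : SimpleGraph V) (r : ℕ) (A : Set V) : ℕ → Set V
  | 0 => A
  | n + 1 => infected G r A n ∪ {v | (r : ℕ∞) ≤ (G.neighborSet v ∩ infected G r A n).encard}

/-- Every vertex is eventually infected. -/
def Percolates (G : SimpleGraph V) (r : ℕ) (A : Set V) : Prop :=
  ∀ v, ∃ n, v ∈ infected G r A n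

end graph

/-- The word `u` is a vertex of the tree in which the vertex `v` has the `T v` children
`v ++ [i]`, `i < T v`. -/
def InTree : (List ℕ → ℕ) → List ℕ → Prop
  | _, [] => True
  | T, i :: u => i < T [] ∧ InTree (fun v => T (i :: v)) u

/-- The rooted tree as a graph: every vertex but the root `[]` is joined to its parent. -/
def tree (T : List ℕ → ℕ) : SimpleGraph {u : List ℕ // InTree T u} where
  Adj u v := (∃ i : ℕ, v.1 = u.1 ++ [i]) ∨ ∃ i : ℕ, u.1 = v.1 ++ [i]
  symm := ⟨fun _ _ h => h.symm⟩
  loopless := ⟨fun u h => by
    rcases h with ⟨i, h⟩ | ⟨i, h⟩ <;>
    · have := congrArg List.length h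
      simp at this⟩

/-- The law of a bit which is `true` with probability `p`. -/
noncomputable def bern (p : unitInterval) : Measure Bool :=
  ENNReal.ofReal (p : ℝ) • Measure.dirac true + ENNReal.ofReal (1 - (p : ℝ)) • Measure.dirac false

instance (p : unitInterval) : IsProbabilityMeasure (bern p) := by
  constructor
  unfold bern
  rw [Measure.add_apply, Measure.smul_apply, Measure.smul_apply, measure_univ, measure_univ,
    smul_eq_mul, smul_eq_mul, mul_one, mul_one,
    ← ENNReal.ofReal_add p.2.1 (by linarith [p.2.2])]
  simp

/-- The law of the offspring numbers of all words, independent with law `ξ`: the Galton-Watson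
tree is `tree T` for `T` with this law. -/
noncomputable def gw (ξ : Measure ℕ) [IsProbabilityMeasure ξ] : Measure (List ℕ → ℕ) :=
  Measure.infinitePi fun _ => ξ

/-- Independent initial infections of all words with probability `p` (the values at the words which
are not vertices of the tree play no role). -/
noncomputable def init (p : unitInterval) : Measure (List ℕ → Bool) :=
  Measure.infinitePi fun _ => bern p

/-- The critical probability of `r`-neighbour bootstrap percolation on the tree with offspring
numbers `T`: the infimum of all `p` such that the tree percolates with positive probability, if the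
vertices are initially infected with probability `p`, independently. -/
noncomputable def pc (T : List ℕ → ℕ) (r : ℕ) : unitInterval :=
  sInf {p : unitInterval | 0 < init p {η | Percolates (tree T) r {u | η u.1 = true}}}

end N838.BT
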