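import Pool.Agent.N838.BT.Stm
import Pool.Agent.N838.BT.Def

/-!
# Bootstrap percolation on trees: the deterministic part
-/

open MeasureTheory

namespace N838.BT

section graph

variable {V : Type*}

theorem stable (G : SimpleGraph V) (r : ℕ) (A S : Set V) (h0 : ∀ v ∈ S, v ∉ A)
    (h1 : ∀ v ∈ S, (G.neighborSet v \ S).encard < r) (n : ℕ) :
    ∀ v ∈ S, v ∉ infected G r A n := by
  induction n with
  | zero => exact h0
  | succ n ih =>
    intro v hv hi
    rcases hi with hi | hi
    · exact ih v hv hi
    · have h2 : (G.neighborSet v ∩ infected G r A n).encard ≤ (G.neighborSet v \ S).encard := by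
        refine Set.encard_le_encard ?_
        rintro w ⟨hw1, hw2⟩
        exact ⟨hw1, fun hw3 => ih w hw3 hw2⟩
      exact absurd (lt_of_le_of_lt (le_trans hi h2) (h1 v hv)) (lt_irrefl _)

end graph

theorem inTree_append (v : List ℕ) : ∀ (T : List ℕ → ℕ) (w : List ℕ),
    InTree T (v ++ w) ↔ InTree T v ∧ InTree (fun u => T (v ++ u)) w := by
  induction v with
  | nil => intro T w; simp [InTree]
  | cons i v ih =>
    intro T w
    simp only [List.cons_append, InTree]
    rw [ih]
    exact (and_assoc).symm

theorem inTree_child {T : List ℕ → ℕ} {v : List ℕ} {i : ℕ} (h : InTree T (v ++ [i])) :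
    i < T v := by
  rw [inTree_append] at h
  have h2 := h.2.1
  simpa using h2

/-- Offspring numbers and initial infections. -/
abbrev Fld := List ℕ → ℕ × Bool

/-- The field below the child `i` of the root. -/
def sub (ζ : Fld) (i : ℕ) : Fld := fun u => ζ (i :: u)

/-- The field below the vertex `v`. -/
def shift (ζ : Fld) (v : List ℕ) : Fld := fun u => ζ (v ++ u)

open Classical in
/-- The root is not infected from below after `n` rounds. -/
def hb (r : ℕ) : ℕ → Set Fld
  | 0 => {ζ | (ζ []).2 = false}
  | n + 1 => {ζ | (ζ []).2 = false ∧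
      ((Finset.range (ζ []).1).filter fun i => sub ζ i ∈ (hb r n)ᶜ).card < r}

/-- The root is never infected from below. -/
def H (r : ℕ) : Set Fld := ⋂ n, hb r n

/-- The root is not infected at the beginning and its children are never infected from below. -/
def K (r : ℕ) : Set Fld := {ζ | (ζ []).2 = false ∧ ∀ i < (ζ []).1, sub ζ i ∈ H r}

theorem hb_succ_subset (r n : ℕ) : hb r (n + 1) ⊆ hb r n := by
  classical
  induction n with
  | zero => intro ζ h; exact h.1
  | succ n ih =>
    intro ζ h
    refine ⟨h.1, lt_of_le_of_lt (Finset.card_le_card ?_) h.2⟩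
    intro i hi
    rw [Finset.mem_filter] at hi ⊢
    exact ⟨hi.1, fun h2 => hi.2 (ih h2)⟩

theorem hb_antitone (r : ℕ) : Antitone (hb r) := antitone_nat_of_succ_le (hb_succ_subset r)

open Classical in
theorem H_card {r : ℕ} {ζ : Fld} (h : ζ ∈ H r) :
    ((Finset.range (ζ []).1).filter fun i => sub ζ i ∉ H r).card < r := by
  have h1 : ∀ i : ℕ, ∃ n, sub ζ i ∉ H r → sub ζ i ∉ hb r n := by
    intro i
    by_cases h2 : sub ζ i ∈ H r
    · exact ⟨0, fun h3 => absurd h2 h3⟩
    · unfold H at h2
      rw [Set.mem_iInter] at h2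
      push Not at h2
      obtain ⟨n, hn⟩ := h2
      exact ⟨n, fun _ => hn⟩
  choose N hN using h1
  set M := (Finset.range (ζ []).1).sup N with hM
  have h2 : ζ ∈ hb r (M + 1) := Set.mem_iInter.1 h (M + 1)
  refine lt_of_le_of_lt (Finset.card_le_card ?_) h2.2
  intro i hi
  rw [Finset.mem_filter] at hi ⊢
  refine ⟨hi.1, fun h3 => hN i hi.2 ?_⟩
  exact hb_antitone r (Finset.le_sup hi.1) h3

theorem sub_shift (ζ : Fld) (v : List ℕ) (i : ℕ) : sub (shift ζ v) i = shift ζ (v ++ [i]) := by
  funext u
  unfold sub shift
  simp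

theorem not_percolates {r : ℕ} (hr : 2 ≤ r) (ζ : Fld) (v : List ℕ)
    (hv : InTree (fun u => (ζ u).1) v) (hK : shift ζ v ∈ K r) :
    ¬ Percolates (tree fun u => (ζ u).1) r {u | (ζ u.1).2 = true} := by
  classical
  set T : List ℕ → ℕ := fun u => (ζ u).1 with hT
  set S : Set {u : List ℕ // InTree T u} :=
    {u | ∃ w, u.1 = v ++ w ∧ ∀ w' x, w = w' ++ x → w' ≠ [] → shift ζ (v ++ w') ∈ H r} with hS
  have hvS : (⟨v, hv⟩ : {u : List ℕ // InTree T u}) ∈ S := by
    refine ⟨[], by simp, ?_⟩
    intro w' x h hne
    exact absurd (List.append_eq_nil_iff.1 h.symm).1 hne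
  have hr1 : (1 : ℕ∞) < (r : ℕ∞) := by exact_mod_cast hr
  have h0 : ∀ u ∈ S, u ∉ {u : {u : List ℕ // InTree T u} | (ζ u.1).2 = true} := by
    rintro u ⟨w, hw, hpre⟩ hu
    by_cases hw0 : w = []
    · subst hw0
      have h1 := hK.1
      unfold shift at h1
      have h2 : (ζ u.1).2 = true := hu
      rw [hw, h1] at h2
      exact Bool.false_ne_true h2
    · have h1 := hpre w [] (by simp) hw0
      have h2 : shift ζ (v ++ w) ∈ hb r 0 := Set.mem_iInter.1 h1 0
      have h3 : (ζ ((v ++ w) ++ [])).2 = false := h2
      rw [List.append_nil, ← hw] at h3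
      have h4 : (ζ u.1).2 = true := hu
      rw [h3] at h4
      exact Bool.false_ne_true h4
  have h1 : ∀ u ∈ S, ((tree T).neighborSet u \ S).encard < r := by
    rintro u ⟨w, hw, hpre⟩
    by_cases hw0 : w = []
    · subst hw0
      rw [List.append_nil] at hw
      have h2 : ((tree T).neighborSet u \ S) ⊆ {x | x.1 = u.1.dropLast} := by
        rintro x ⟨hx1, hx2⟩
        have hx1' : (∃ i : ℕ, x.1 = u.1 ++ [i]) ∨ ∃ i : ℕ, u.1 = x.1 ++ [i] := hx1
        rcases hx1' with ⟨i, hi⟩ | ⟨i, hi⟩
        · exfalso
          apply hx2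
          refine ⟨[i], by rw [hi, hw], ?_⟩
          intro w' y hwy hne
          have h3 : w' = [i] := by
            cases w' with
            | nil => exact absurd rfl hne
            | cons a w' =>
              have h4 := hwy
              simp at h4
              rw [h4.1, h4.2.1]
          rw [h3, ← sub_shift]
          refine hK.2 i ?_
          have h5 : i < T u.1 := inTree_child (hi ▸ x.2)
          rw [hw] at h5
          unfold shift
          simpa using h5
        · show x.1 = u.1.dropLast
          rw [hi]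
          simp
      refine lt_of_le_of_lt (Set.encard_le_encard h2) (lt_of_le_of_lt ?_ hr1)
      rw [Set.encard_le_one_iff]
      intro a b ha hb
      exact Subtype.ext (ha.trans hb.symm)
    · have hH := hpre w [] (by simp) hw0
      have hc := H_card hH
      have h0' : (shift ζ (v ++ w) []).1 = T u.1 := by
        unfold shift
        rw [List.append_nil, ← hw]
      rw [h0'] at hc
      have h2 : ∀ x ∈ (tree T).neighborSet u \ S, ∃ i : ℕ, x.1 = u.1 ++ [i] ∧
          i ∈ (Finset.range (T u.1)).filter fun i => sub (shift ζ (v ++ w)) i ∉ H r := by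
        rintro x ⟨hx1, hx2⟩
        have hx1' : (∃ i : ℕ, x.1 = u.1 ++ [i]) ∨ ∃ i : ℕ, u.1 = x.1 ++ [i] := hx1
        rcases hx1' with ⟨i, hi⟩ | ⟨i, hi⟩
        · refine ⟨i, hi, ?_⟩
          rw [Finset.mem_filter, Finset.mem_range]
          refine ⟨inTree_child (hi ▸ x.2), ?_⟩
          intro h3
          apply hx2
          refine ⟨w ++ [i], by rw [hi, hw, List.append_assoc], ?_⟩
          intro w' y hwy hne
          rcases List.eq_nil_or_concat y with rfl | ⟨y', j, rfl⟩
          · rw [List.append_nil] at hwy
            rw [← hwy, ← List.append_assoc, ← sub_shift]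
            exact h3
          · rw [List.concat_eq_append, ← List.append_assoc] at hwy
            have h4 := (List.append_inj' hwy rfl).1
            exact hpre w' y' h4 hne
        · exfalso
          apply hx2
          rcases List.eq_nil_or_concat w with rfl | ⟨w', j, rfl⟩
          · exact absurd rfl hw0
          · rw [List.concat_eq_append] at hw hpre
            refine ⟨w', ?_, ?_⟩
            · have h3 : x.1 ++ [i] = (v ++ w') ++ [j] := by rw [← hi, hw, List.append_assoc]
              exact (List.append_inj' h3 rfl).1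
            · intro w'' y hwy hne
              exact hpre w'' (y ++ [j]) (by rw [hwy, List.append_assoc]) hne
      have h3 : ((tree T).neighborSet u \ S).encard ≤
          (((Finset.range (T u.1)).filter fun i => sub (shift ζ (v ++ w)) i ∉ H r : Finset ℕ) :
            Set ℕ).encard := by
        refine Set.encard_le_encard_of_injOn (f := fun x => x.1.getLastD 0) ?_ ?_
        · intro x hx
          obtain ⟨i, hi, hi2⟩ := h2 x hx
          show x.1.getLastD 0 ∈ _
          rw [hi]
          simpa using hi2
        · intro x hx y hy hxy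
          obtain ⟨i, hi, _⟩ := h2 x hx
          obtain ⟨j, hj, _⟩ := h2 y hy
          have h4 : x.1.getLastD 0 = y.1.getLastD 0 := hxy
          rw [hi, hj] at h4
          have h5 : i = j := by simpa using h4
          exact Subtype.ext (by rw [hi, hj, h5])
      refine lt_of_le_of_lt h3 ?_
      rw [Set.encard_coe_eq_coe_finsetCard]
      exact_mod_cast hc
  intro hperc
  obtain ⟨n, hn⟩ := hperc ⟨v, hv⟩
  exact stable (tree T) r _ S h0 h1 n _ hvS hn

end N838.BT
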