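import Pool.Agent.N838.BT.Null
import Pool.Agent.N186.BT.INT

/-!
# Bootstrap percolation on trees: the fixed point
-/

open MeasureTheory

namespace N838.BT

theorem F_cont (k : ℕ) : ∀ r : ℕ, Continuous (F r k) := by
  induction k with
  | zero =>
    intro r
    cases r with
    | zero => exact continuous_const
    | succ r => exact continuous_const
  | succ k ih =>
    intro r
    cases r with
    | zero => exact continuous_const
    | succ r =>
      have e : F (r + 1) (k + 1) = fun y => (1 - y) * F (r + 1) k y + y * F r k y := rfl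
      rw [e]
      exact ((continuous_const.sub continuous_id).mul (ih (r + 1))).add (continuous_id.mul (ih r))

section

variable (ξ : Measure ℕ) [IsProbabilityMeasure ξ]

theorem finite_sum_le (r : ℕ) (y : ℝ) (h0 : 0 ≤ y) (h1 : y ≤ 1) (n : ℕ) :
    ENNReal.ofReal (∑ k ∈ Finset.range n, ξ.real {k} * F r k y)
      ≤ ∫⁻ k, ENNReal.ofReal (F r k y) ∂ξ := by
  rw [lintegral_countable', ENNReal.ofReal_sum_of_nonneg]
  · refine le_trans ?_ (ENNReal.sum_le_tsum (Finset.range n))
    refine Finset.sum_le_sum fun k _ => ?_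
    rw [ENNReal.ofReal_mul measureReal_nonneg, ofReal_measureReal, mul_comm]
  · intro k _
    exact mul_nonneg measureReal_nonneg (F_bounds k r y h0 h1).1

theorem hasSum_one : HasSum (fun k : ℕ => ξ.real {k}) 1 := by
  have h1 : ∑' k : ℕ, ξ {k} = 1 := by
    have h := lintegral_countable' (μ := ξ) (fun _ : ℕ => (1 : ENNReal))
    simp only [lintegral_const, measure_univ, mul_one, one_mul] at h
    exact h.symm
  have h2 := ENNReal.hasSum_toReal (f := fun k : ℕ => ξ {k}) (by rw [h1]; exact ENNReal.one_ne_top)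
  have h3 : ∑' k : ℕ, (ξ {k}).toReal = 1 := by
    rw [← ENNReal.tsum_toReal_eq (fun k => measure_ne_top _ _), h1, ENNReal.toReal_one]
  rw [h3] at h2
  exact h2

theorem hasSum_mean (b : ℝ) (hb0 : 0 ≤ b) (hb : ∫⁻ k, (k : ENNReal) ∂ξ = ENNReal.ofReal b) :
    HasSum (fun k : ℕ => ξ.real {k} * (k : ℝ)) b := by
  have h1 : ∑' k : ℕ, (k : ENNReal) * ξ {k} = ENNReal.ofReal b := by
    rw [← hb, lintegral_countable']
  have h2 := ENNReal.hasSum_toReal (f := fun k : ℕ => (k : ENNReal) * ξ {k})
    (by rw [h1]; exact ENNReal.ofReal_ne_top)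
  have h3 : ∑' k : ℕ, ((k : ENNReal) * ξ {k}).toReal = b := by
    rw [← ENNReal.tsum_toReal_eq
      (fun k => ENNReal.mul_ne_top (ENNReal.natCast_ne_top k) (measure_ne_top _ _)), h1,
      ENNReal.toReal_ofReal hb0]
  rw [h3] at h2
  have e : (fun k : ℕ => ((k : ENNReal) * ξ {k}).toReal) = fun k : ℕ => ξ.real {k} * (k : ℝ) := by
    funext k
    rw [ENNReal.toReal_mul, ENNReal.toReal_natCast, mul_comm, measureReal_def]
  rwa [e] at h2

theorem exists_x (r : ℕ) (hr : 2 ≤ r) (b : ℝ) (hbr : (r : ℝ) ≤ b)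
    (hb : ∫⁻ k, (k : ENNReal) ∂ξ = ENNReal.ofReal b) (p : ℝ) (hp0 : 0 ≤ p)
    (hp : p * (Real.exp (b / (r - 1)) - b / (r - 1)) < 1) :
    ∃ x : ℝ, 0 < x ∧ x ≤ 1 ∧ ENNReal.ofReal x ≤ ENNReal.ofReal (1 - p) *
      ∫⁻ k, ENNReal.ofReal (F r k (1 - x)) ∂ξ := by
  obtain ⟨s, rfl⟩ : ∃ s, r = s + 2 := ⟨r - 2, by omega⟩
  have hs : (((s + 2 : ℕ) : ℝ) - 1) = (s : ℝ) + 1 := by push_cast; ring
  rw [hs] at hp
  have hs1 : (0 : ℝ) < (s : ℝ) + 1 := by positivity
  have hb0 : 0 ≤ b := le_trans (by positivity) hbr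
  set β := b / ((s : ℝ) + 1) with hβ
  have hβ0 : 0 ≤ β := by positivity
  set m := Real.exp β with hm
  have hmβ : β + 1 ≤ m := Real.add_one_le_exp β
  have hm1 : 1 ≤ m := by linarith
  have hm0 : 0 < m := by linarith
  have hp1 : p < 1 := by
    by_contra hcon
    push Not at hcon
    have : 1 * 1 ≤ p * (m - β) := mul_le_mul hcon (by linarith) zero_le_one hp0
    linarith
  by_contra hcon
  push Not at hcon
  -- no mass below `r`
  have hlow : ∀ k < s + 2, ξ.real {k} = 0 := by
    intro k hk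
    by_contra hne
    have hpos : 0 < ξ.real {k} := lt_of_le_of_ne measureReal_nonneg (Ne.symm hne)
    have hle1 : ξ.real {k} ≤ 1 := measureReal_le_one
    have hx0 : 0 < (1 - p) * ξ.real {k} := mul_pos (by linarith) hpos
    have hx1 : (1 - p) * ξ.real {k} ≤ 1 := by nlinarith
    have h1 := hcon _ hx0 hx1
    have h2 := finite_sum_le ξ (s + 2) (1 - (1 - p) * ξ.real {k}) (by linarith) (by linarith) (k + 1)
    have h3 : ξ.real {k} ≤ ∑ j ∈ Finset.range (k + 1),
        ξ.real {j} * F (s + 2) j (1 - (1 - p) * ξ.real {k}) := by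
      have h4 : ξ.real {k} * F (s + 2) k (1 - (1 - p) * ξ.real {k}) ≤ ∑ j ∈ Finset.range (k + 1),
          ξ.real {j} * F (s + 2) j (1 - (1 - p) * ξ.real {k}) := by
        refine Finset.single_le_sum
          (f := fun j => ξ.real {j} * F (s + 2) j (1 - (1 - p) * ξ.real {k})) ?_
          (Finset.self_mem_range_succ k)
        intro j _
        exact mul_nonneg measureReal_nonneg (F_bounds j (s + 2) _ (by linarith) (by linarith)).1
      rw [F_eq_one k (s + 2) _ hk, mul_one] at h4
      exact h4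
    have h5 : ENNReal.ofReal ((1 - p) * ξ.real {k}) ≤ ENNReal.ofReal (1 - p) *
        ∫⁻ j, ENNReal.ofReal (F (s + 2) j (1 - (1 - p) * ξ.real {k})) ∂ξ := by
      rw [ENNReal.ofReal_mul (by linarith : (0 : ℝ) ≤ 1 - p)]
      gcongr
      exact (ENNReal.ofReal_le_ofReal h3).trans h2
    exact absurd (lt_of_le_of_lt h5 h1) (lt_irrefl _)
  -- the finite sums
  have hfin : ∀ n : ℕ, ∀ y ∈ Set.Ioo (1 / m) 1,
      (1 - p) * ∑ k ∈ Finset.range n, ξ.real {k} * F (s + 2) k y ≤ 1 - y := by
    intro n y hy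
    have hy0 : 0 < y := lt_trans (by positivity) hy.1
    have h1 := hcon (1 - y) (by linarith [hy.2]) (by linarith)
    have h2 := finite_sum_le ξ (s + 2) y hy0.le hy.2.le n
    rw [sub_sub_cancel] at h1
    have h3 : ENNReal.ofReal ((1 - p) * ∑ k ∈ Finset.range n, ξ.real {k} * F (s + 2) k y)
        ≤ ENNReal.ofReal (1 - y) := by
      rw [ENNReal.ofReal_mul (by linarith : (0 : ℝ) ≤ 1 - p)]
      refine le_trans ?_ h1.le
      gcongr
    exact (ENNReal.ofReal_le_ofReal_iff (by linarith [hy.2])).1 h3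
  have hm1' : 1 / m ≤ 1 := by
    rw [div_le_one hm0]; exact hm1
  have h1m : 0 < 1 / m := by positivity
  have hsq : ∀ y ∈ Set.uIcc (1 / m) 1, y ^ 2 ≠ 0 := by
    intro y hy
    rw [Set.uIcc_of_le hm1'] at hy
    have : 0 < y := lt_of_lt_of_le h1m hy.1
    positivity
  have hint : ∀ k : ℕ, IntervalIntegrable (fun y => F (s + 2) k y / y ^ 2) volume (1 / m) 1 := by
    intro k
    refine ContinuousOn.intervalIntegrable ?_
    exact (F_cont k (s + 2)).continuousOn.div (continuous_pow 2).continuousOn hsq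
  have hright : ∫ y in (1 / m)..1, (1 - y) / y ^ 2 = m - 1 - β := by
    have hderiv : ∀ y ∈ Set.uIcc (1 / m) 1,
        HasDerivAt (fun y : ℝ => - y⁻¹ - Real.log y) ((1 - y) / y ^ 2) y := by
      intro y hy
      rw [Set.uIcc_of_le hm1'] at hy
      have hy0 : 0 < y := lt_of_lt_of_le h1m hy.1
      have h := ((hasDerivAt_inv hy0.ne').neg).sub (Real.hasDerivAt_log hy0.ne')
      refine h.congr_deriv ?_
      field_simp
    have hc : IntervalIntegrable (fun y : ℝ => (1 - y) / y ^ 2) volume (1 / m) 1 := by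
      refine ContinuousOn.intervalIntegrable ?_
      exact (continuous_const.sub continuous_id).continuousOn.div (continuous_pow 2).continuousOn hsq
    rw [intervalIntegral.integral_eq_sub_of_hasDerivAt hderiv hc]
    rw [one_div, inv_inv, Real.log_one, inv_one, Real.log_inv, hm, Real.log_exp]
    ring
  have hsum : ∀ n : ℕ, (1 - p) * ∑ k ∈ Finset.range n, ξ.real {k} * (m - (k : ℝ) / ((s : ℝ) + 1))
      ≤ m - 1 - β := by
    intro n
    rw [← hright]
    have h1 : ∑ k ∈ Finset.range n, ξ.real {k} * (m - (k : ℝ) / ((s : ℝ) + 1))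
        ≤ ∑ k ∈ Finset.range n, ξ.real {k} * ∫ y in (1 / m)..1, F (s + 2) k y / y ^ 2 := by
      refine Finset.sum_le_sum fun k _ => ?_
      by_cases hk : k < s + 2
      · rw [hlow k hk]; simp
      · exact mul_le_mul_of_nonneg_left (Pool.Agent.N186.BT.t_INT s k m hm1 (by omega))
          measureReal_nonneg
    have h2 : (1 - p) * ∑ k ∈ Finset.range n, ξ.real {k} * ∫ y in (1 / m)..1, F (s + 2) k y / y ^ 2
        = ∫ y in (1 / m)..1, (1 - p) * ∑ k ∈ Finset.range n, ξ.real {k} * (F (s + 2) k y / y ^ 2) := by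
      rw [intervalIntegral.integral_const_mul, intervalIntegral.integral_finsetSum]
      · congr 1
        refine Finset.sum_congr rfl fun k _ => ?_
        rw [intervalIntegral.integral_const_mul]
      · intro k _
        exact (hint k).const_mul _
    refine (mul_le_mul_of_nonneg_left h1 (by linarith : (0 : ℝ) ≤ 1 - p)).trans ?_
    rw [h2]
    refine intervalIntegral.integral_mono_on_of_le_Ioo hm1' ?_ ?_ ?_
    · refine ContinuousOn.intervalIntegrable ?_
      refine continuousOn_const.mul (continuousOn_finsetSum _ fun k _ => ?_)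
      exact continuousOn_const.mul
        ((F_cont k (s + 2)).continuousOn.div (continuous_pow 2).continuousOn hsq)
    · refine ContinuousOn.intervalIntegrable ?_
      exact (continuous_const.sub continuous_id).continuousOn.div (continuous_pow 2).continuousOn hsq
    · intro y hy
      have hy0 : 0 < y := lt_trans h1m hy.1
      have h3 := hfin n y hy
      have h4 : (1 - p) * ∑ k ∈ Finset.range n, ξ.real {k} * (F (s + 2) k y / y ^ 2)
          = ((1 - p) * ∑ k ∈ Finset.range n, ξ.real {k} * F (s + 2) k y) / y ^ 2 := by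
        rw [mul_div_assoc, Finset.sum_div]
        congr 1
        refine Finset.sum_congr rfl fun k _ => ?_
        ring
      rw [h4]
      exact div_le_div_of_nonneg_right h3 (by positivity)
  have hlim : Filter.Tendsto (fun n : ℕ => (1 - p) * ∑ k ∈ Finset.range n,
      ξ.real {k} * (m - (k : ℝ) / ((s : ℝ) + 1))) Filter.atTop (nhds ((1 - p) * (m - β))) := by
    have h1 := (hasSum_one ξ).mul_right m
    have h2 := (hasSum_mean ξ b hb0 hb).div_const ((s : ℝ) + 1)
    have h3 := (h1.sub h2).tendsto_sum_nat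
    rw [one_mul] at h3
    refine (Filter.Tendsto.const_mul (1 - p) h3).congr fun n => ?_
    congr 1
    refine Finset.sum_congr rfl fun k _ => ?_
    ring
  have hfinal : (1 - p) * (m - β) ≤ m - 1 - β := le_of_tendsto' hlim hsum
  nlinarith

end

end N838.BT
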