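import Pool.Agent.N838.BT.Exist

/-!
# Bootstrap percolation on Galton-Watson trees: the lower bound for the critical probability
-/

open MeasureTheory

namespace N838.BT

instance (ξ : Measure ℕ) [IsProbabilityMeasure ξ] : IsProbabilityMeasure (gw ξ) := by
  unfold gw; infer_instance

instance (p : unitInterval) : IsProbabilityMeasure (init p) := by
  unfold init; infer_instance

theorem perc_subset {r : ℕ} (hr : 2 ≤ r) (T : List ℕ → ℕ) :
    {η : List ℕ → Bool | Percolates (tree T) r {u | η u.1 = true}}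
      ⊆ {η | (fun u => (T u, η u)) ∈ BB r} := by
  intro η h v hv hK
  exact not_percolates hr (fun u => (T u, η u)) v hv hK h

theorem measurable_pair (T : List ℕ → ℕ) :
    Measurable fun η : List ℕ → Bool => (fun u => (T u, η u) : Fld) :=
  measurable_pi_lambda _ fun u => measurable_const.prodMk (measurable_pi_apply u)

theorem bern_true (p : unitInterval) : bern p {true} = ENNReal.ofReal (p : ℝ) := by
  unfold bern
  simp

/-- Monotonicity in `p`. -/
theorem init_mono {p q : unitInterval} (hpq : (p : ℝ) < q) (E : Set (List ℕ → Bool))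
    (hE : MeasurableSet E) (hup : ∀ η η' : List ℕ → Bool, (∀ u, η u = true → η' u = true) →
      η ∈ E → η' ∈ E) : init p E ≤ init q E := by
  have hq0 : 0 < (q : ℝ) := lt_of_le_of_lt p.2.1 hpq
  set c : unitInterval := ⟨(p : ℝ) / q, div_nonneg p.2.1 hq0.le, by
    rw [div_le_one hq0]; exact hpq.le⟩ with hc
  have hcq : (q : ℝ) * (c : ℝ) = p := by
    show (q : ℝ) * ((p : ℝ) / q) = p
    field_simp
  -- the law of the conjunction
  have hand : Measure.map (fun x : Bool × Bool => x.1 && x.2) ((bern q).prod (bern c)) = bern p := by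
    have ht : Measure.map (fun x : Bool × Bool => x.1 && x.2) ((bern q).prod (bern c)) {true}
        = bern p {true} := by
      rw [Measure.map_apply Measurable.of_discrete (MeasurableSet.singleton _)]
      have h : (fun x : Bool × Bool => x.1 && x.2) ⁻¹' {true}
          = ({true} : Set Bool) ×ˢ ({true} : Set Bool) := by
        ext ⟨a, b⟩
        cases a <;> cases b <;> simp
      rw [h, Measure.prod_prod, bern_true, bern_true, bern_true, ← ENNReal.ofReal_mul hq0.le, hcq]
    have : IsProbabilityMeasure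
        (Measure.map (fun x : Bool × Bool => x.1 && x.2) ((bern q).prod (bern c))) :=
      Measure.isProbabilityMeasure_map Measurable.of_discrete.aemeasurable
    refine Measure.ext_of_singleton fun e => ?_
    cases e with
    | true => exact ht
    | false =>
      have h : ({false} : Set Bool) = {true}ᶜ := by
        ext a; cases a <;> simp
      rw [h, prob_compl_eq_one_sub (MeasurableSet.singleton _),
        prob_compl_eq_one_sub (MeasurableSet.singleton _), ht]
  have h1 : init p = (Measure.infinitePi fun _ : List ℕ => (bern q).prod (bern c)).map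
      (fun ζ u => (ζ u).1 && (ζ u).2) := by
    unfold init
    have h2 := Measure.infinitePi_map_pi (μ := fun _ : List ℕ => (bern q).prod (bern c))
      (f := fun _ (x : Bool × Bool) => x.1 && x.2) (fun _ => Measurable.of_discrete)
    rw [h2]
    simp only [hand]
  have h3 : init q = (Measure.infinitePi fun _ : List ℕ => (bern q).prod (bern c)).map
      (fun ζ u => (ζ u).1) := by
    unfold init
    have h2 := Measure.infinitePi_map_pi (μ := fun _ : List ℕ => (bern q).prod (bern c))
      (f := fun _ (x : Bool × Bool) => x.1) (fun _ => Measurable.of_discrete)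
    rw [h2]
    congr 1
    funext u
    exact Measure.fst_prod.symm
  rw [h1, h3, Measure.map_apply _ hE, Measure.map_apply _ hE]
  · refine measure_mono ?_
    intro ζ hζ
    refine hup _ _ ?_ hζ
    intro u hu
    exact (Bool.and_eq_true_iff.1 hu).1
  · exact measurable_pi_lambda _ fun u => measurable_fst.comp (measurable_pi_apply u)
  · exact measurable_pi_lambda _ fun u =>
      (Measurable.of_discrete (f := fun x : Bool × Bool => x.1 && x.2)).comp (measurable_pi_apply u)

theorem null_of_lt (r : ℕ) (hr : 2 ≤ r) (ξ : Measure ℕ) [IsProbabilityMeasure ξ] (h0 : ξ {0} = 0)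
    (b : ℝ) (hbr : (r : ℝ) ≤ b) (hb : ∫⁻ k, (k : ENNReal) ∂ξ = ENNReal.ofReal b)
    (q : unitInterval) (hq : (q : ℝ) * (Real.exp (b / (r - 1)) - b / (r - 1)) < 1) :
    ∀ᵐ T ∂(gw ξ), init q {η | (fun u => (T u, η u)) ∈ BB r} = 0 := by
  obtain ⟨x, hx0, hx1, hx⟩ := exists_x ξ r hr b hbr hb q q.2.1 hq
  have hq1 : (q : ℝ) < 1 := by
    by_contra hcon
    push Not at hcon
    have h1 : b / ((r : ℝ) - 1) + 1 ≤ Real.exp (b / (r - 1)) := Real.add_one_le_exp _
    have : 1 * 1 ≤ (q : ℝ) * (Real.exp (b / (r - 1)) - b / (r - 1)) :=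
      mul_le_mul hcon (by linarith) zero_le_one q.2.1
    linarith
  have hH : PP ξ q (H r) ≠ 0 := by
    have h1 := PP_H_ge ξ q r x hx0.le hx1 hx
    intro h2
    rw [h2] at h1
    have := ENNReal.ofReal_pos.2 hx0
    exact absurd (lt_of_lt_of_le this h1) (lt_irrefl _)
  have h2 : ξ {k | 2 ≤ k} ≠ 0 := by
    intro h3
    have h4 : ∫⁻ k, (k : ENNReal) ∂ξ ≤ ∫⁻ _ : ℕ, 1 ∂ξ := by
      refine lintegral_mono_ae ?_
      have h5 : ∀ᵐ k ∂ξ, ¬ 2 ≤ k := by
        rw [ae_iff]
        simp only [not_not]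
        exact h3
      filter_upwards [h5] with k hk
      have : k ≤ 1 := by omega
      exact_mod_cast this
    rw [hb, lintegral_const, measure_univ, mul_one, ENNReal.ofReal_le_one] at h4
    have : (2 : ℝ) ≤ r := by exact_mod_cast hr
    linarith
  have hBB := PP_BB_zero ξ q r hq1 hH h0 h2
  have hpair : (PP ξ q).map (fun ζ => ((fun u => (ζ u).1), fun u => (ζ u).2))
      = (gw ξ).prod (init q) := N704.BT.t_PAIR ℕ Bool ξ (bern q)
  have hm1 : Measurable fun z : (List ℕ → ℕ) × (List ℕ → Bool) =>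
      (fun u => (z.1 u, z.2 u) : Fld) :=
    measurable_pi_lambda _ fun u => ((measurable_pi_apply u).comp measurable_fst).prodMk
      ((measurable_pi_apply u).comp measurable_snd)
  have hm2 : MeasurableSet {z : (List ℕ → ℕ) × (List ℕ → Bool) |
      (fun u => (z.1 u, z.2 u) : Fld) ∈ BB r} := hm1 (measurableSet_BB r)
  have hm3 : Measurable fun ζ : Fld => ((fun u => (ζ u).1 : List ℕ → ℕ), (fun u => (ζ u).2 : List ℕ → Bool)) :=
    (measurable_pi_lambda _ fun u => measurable_fst.comp (measurable_pi_apply u)).prodMk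
      (measurable_pi_lambda _ fun u => measurable_snd.comp (measurable_pi_apply u))
  have hnull : ((gw ξ).prod (init q)) {z : (List ℕ → ℕ) × (List ℕ → Bool) |
      (fun u => (z.1 u, z.2 u) : Fld) ∈ BB r} = 0 := by
    rw [← hpair, Measure.map_apply hm3 hm2]
    exact hBB
  exact (Measure.measure_prod_null hm2).1 hnull

theorem pc_ge (r : ℕ) (hr : 2 ≤ r) (ξ : Measure ℕ) [IsProbabilityMeasure ξ] (h0 : ξ {0} = 0)
    (b : ℝ) (hbr : (r : ℝ) ≤ b) (hb : ∫⁻ k, (k : ENNReal) ∂ξ = ENNReal.ofReal b) :
    ∀ᵐ T ∂(gw ξ), 1 / (Real.exp (b / (r - 1)) - b / (r - 1)) ≤ (pc T r : ℝ) := by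
  set w := Real.exp (b / ((r : ℝ) - 1)) - b / (r - 1) with hw
  have hw1 : 1 ≤ w := by
    have := Real.add_one_le_exp (b / ((r : ℝ) - 1))
    linarith
  have hw0 : 0 < w := by linarith
  have hall : ∀ᵐ T ∂(gw ξ), ∀ j : {q : ℚ // 0 ≤ (q : ℝ) ∧ (q : ℝ) ≤ 1 ∧ (q : ℝ) * w < 1},
      init ⟨(j.1 : ℝ), j.2.1, j.2.2.1⟩ {η | (fun u => (T u, η u)) ∈ BB r} = 0 := by
    rw [ae_all_iff]
    intro j
    exact null_of_lt r hr ξ h0 b hbr hb ⟨(j.1 : ℝ), j.2.1, j.2.2.1⟩ j.2.2.2
  filter_upwards [hall] with T hT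
  have hle : (⟨1 / w, by positivity, by rw [div_le_one hw0]; exact hw1⟩ : unitInterval) ≤ pc T r := by
    unfold pc
    refine le_sInf fun p hp => ?_
    by_contra hcon
    rw [not_le, ← Subtype.coe_lt_coe] at hcon
    obtain ⟨q, hpq, hqw⟩ := exists_rat_btwn hcon
    have hq0 : 0 ≤ (q : ℝ) := p.2.1.trans hpq.le
    have hqw' : (q : ℝ) * w < 1 := by rwa [lt_div_iff₀ hw0] at hqw
    have hq1 : (q : ℝ) ≤ 1 := by
      have : (q : ℝ) * 1 ≤ (q : ℝ) * w := mul_le_mul_of_nonneg_left hw1 hq0
      linarith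
    have h1 := hT ⟨q, hq0, hq1, hqw'⟩
    have h2 : init p {η | (fun u => (T u, η u)) ∈ BB r} ≤ 0 := by
      rw [← h1]
      refine init_mono (q := ⟨(q : ℝ), hq0, hq1⟩) hpq _
        (measurable_pair T (measurableSet_BB r)) ?_
      intro η η' hup hη
      exact BB_mono r T η η' hup hη
    have h3 := (measure_mono (perc_subset hr T)).trans h2
    have hp' : 0 < init p {η | Percolates (tree T) r {u | η u.1 = true}} := hp
    exact absurd (lt_of_lt_of_le hp' h3) (lt_irrefl _)
  exact hle

end N838.BT
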