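import Pool.Agent.N838.BT.Prob

/-!
# Bootstrap percolation on trees: stable healthy sets exist almost surely
-/

open MeasureTheory

namespace N838.BT

/-- No vertex of the tree starts a stable healthy set. -/
def BB (r : ℕ) : Set Fld := {ζ | ∀ v, InTree (fun u => (ζ u).1) v → shift ζ v ∉ K r}

theorem measurable_sub (i : ℕ) : Measurable fun ζ : Fld => sub ζ i :=
  measurable_pi_lambda _ fun _ => measurable_pi_apply _

theorem measurable_shift (v : List ℕ) : Measurable fun ζ : Fld => shift ζ v :=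
  measurable_pi_lambda _ fun _ => measurable_pi_apply _

theorem measurableSet_inTree (v : List ℕ) :
    MeasurableSet {ζ : Fld | InTree (fun u => (ζ u).1) v} := by
  induction v with
  | nil =>
    have : {ζ : Fld | InTree (fun u => (ζ u).1) []} = Set.univ := by
      ext ζ; simp [InTree]
    rw [this]; exact MeasurableSet.univ
  | cons i v ih =>
    have : {ζ : Fld | InTree (fun u => (ζ u).1) (i :: v)}
        = ((fun ζ : Fld => (ζ []).1) ⁻¹' Set.Ioi i) ∩
          ((fun ζ : Fld => sub ζ i) ⁻¹' {ζ : Fld | InTree (fun u => (ζ u).1) v}) := by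
      ext ζ; rfl
    rw [this]
    exact ((measurable_fst.comp (measurable_pi_apply _)) measurableSet_Ioi).inter
      (measurable_sub i ih)

/-- All of the first `k` fields are in `A`. -/
def AA (A : Set Fld) (k : ℕ) : Set (ℕ → Fld) := (Finset.range k : Set ℕ).pi fun _ => A

theorem mem_AA {A : Set Fld} {k : ℕ} {ω : ℕ → Fld} : ω ∈ AA A k ↔ ∀ i < k, ω i ∈ A := by
  unfold AA
  simp [Set.mem_pi]

theorem measurableSet_AA {A : Set Fld} (hA : MeasurableSet A) (k : ℕ) :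
    MeasurableSet (AA A k) :=
  MeasurableSet.pi (Finset.countable_toSet _) fun _ _ => hA

theorem K_eq (r : ℕ) : K r = {ζ | (ζ []).2 = false ∧ sub ζ ∈ AA (H r) (ζ []).1} := by
  ext ζ
  constructor
  · rintro ⟨h1, h2⟩
    exact ⟨h1, mem_AA.2 h2⟩
  · rintro ⟨h1, h2⟩
    exact ⟨h1, mem_AA.1 h2⟩

theorem measurableSet_K (r : ℕ) : MeasurableSet (K r) := by
  rw [K_eq]
  exact measurable_dec (measurableSet_E (AA (H r)) fun k => measurableSet_AA (measurableSet_H r) k)

theorem measurableSet_BB (r : ℕ) : MeasurableSet (BB r) := by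
  have : BB r = ⋂ v : List ℕ, ({ζ : Fld | InTree (fun u => (ζ u).1) v}ᶜ ∪
      ((fun ζ : Fld => shift ζ v) ⁻¹' (K r)ᶜ)) := by
    ext ζ
    unfold BB
    simp only [Set.mem_ofPred_eq, Set.mem_iInter, Set.mem_union, Set.mem_compl_iff,
      Set.mem_preimage]
    refine forall_congr' fun v => ?_
    exact imp_iff_not_or
  rw [this]
  exact MeasurableSet.iInter fun v => (measurableSet_inTree v).compl.union
    (measurable_shift v (measurableSet_K r).compl)

theorem BB_subset (r : ℕ) : BB r ⊆ {ζ | sub ζ ∈ AA (BB r) (ζ []).1} := by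
  intro ζ h
  refine mem_AA.2 fun i hi => ?_
  intro v hv
  have h1 : InTree (fun u => (ζ u).1) (i :: v) := ⟨hi, hv⟩
  exact h (i :: v) h1

theorem BB_subset_compl (r : ℕ) : BB r ⊆ (K r)ᶜ := by
  intro ζ h
  exact h [] trivial

section

variable (ξ : Measure ℕ) [IsProbabilityMeasure ξ] (p : unitInterval)

theorem QQ_AA {A : Set Fld} (hA : MeasurableSet A) (k : ℕ) :
    QQ ξ p (AA A k) = (PP ξ p A) ^ k := by
  unfold QQ AA
  rw [Measure.infinitePi_pi _ fun _ _ => hA]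
  simp

theorem PP_K (r : ℕ) : PP ξ p (K r)
    = ENNReal.ofReal (1 - (p : ℝ)) * ∫⁻ k, (PP ξ p (H r)) ^ k ∂ξ := by
  rw [K_eq, split_false ξ p _ fun k => measurableSet_AA (measurableSet_H r) k]
  congr 1
  exact lintegral_congr fun k => QQ_AA ξ p (measurableSet_H r) k

theorem PP_K_pos (r : ℕ) (hp : (p : ℝ) < 1) (hH : PP ξ p (H r) ≠ 0) : PP ξ p (K r) ≠ 0 := by
  rw [PP_K]
  refine mul_ne_zero ?_ ?_
  · rw [ne_eq, ENNReal.ofReal_eq_zero]
    linarith
  · intro h
    rw [lintegral_eq_zero_iff Measurable.of_discrete] at h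
    have h2 : ∀ᵐ k ∂ξ, False := by
      filter_upwards [h] with k hk
      exact pow_ne_zero k hH hk
    rw [Filter.eventually_false_iff_eq_bot, ae_eq_bot] at h2
    exact IsProbabilityMeasure.ne_zero ξ h2

theorem PP_BB_le (r : ℕ) : PP ξ p (BB r) ≤ ∫⁻ k, (PP ξ p (BB r)) ^ k ∂ξ := by
  have h1 := split_all ξ p (AA (BB r)) fun k => measurableSet_AA (measurableSet_BB r) k
  have h2 : ∫⁻ k, QQ ξ p (AA (BB r) k) ∂ξ = ∫⁻ k, (PP ξ p (BB r)) ^ k ∂ξ :=
    lintegral_congr fun k => QQ_AA ξ p (measurableSet_BB r) k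
  rw [← h2, ← h1]
  exact measure_mono (BB_subset r)

theorem PP_BB_zero (r : ℕ) (hp : (p : ℝ) < 1) (hH : PP ξ p (H r) ≠ 0) (h0 : ξ {0} = 0)
    (h2 : ξ {k | 2 ≤ k} ≠ 0) : PP ξ p (BB r) = 0 := by
  by_contra hne
  set θ := PP ξ p (BB r) with hθ
  have hθ1 : θ < 1 := by
    have h3 : θ ≤ PP ξ p (K r)ᶜ := measure_mono (BB_subset_compl r)
    rw [prob_compl_eq_one_sub (measurableSet_K r)] at h3
    exact lt_of_le_of_lt h3 (ENNReal.sub_lt_self ENNReal.one_ne_top one_ne_zero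
      (PP_K_pos ξ p r hp hH))
  have h3 : θ ≤ ∫⁻ k, θ ^ k ∂ξ := PP_BB_le ξ p r
  have h4 : ∫⁻ k, θ ^ k ∂ξ ≤ ∫⁻ k, θ * (if k ≤ 1 then 1 else θ) ∂ξ := by
    refine lintegral_mono_ae ?_
    have h5 : ∀ᵐ k ∂ξ, k ≠ 0 := by
      rw [ae_iff]
      simpa using h0
    filter_upwards [h5] with k hk
    rcases k with _ | _ | k
    · exact absurd rfl hk
    · simp
    · have h6 : ¬ (k + 1 + 1 ≤ 1) := by omega
      rw [if_neg h6, ← sq]
      exact pow_le_pow_right_of_le_one' hθ1.le (by omega)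
  rw [lintegral_const_mul _ Measurable.of_discrete] at h4
  have h5 : ∫⁻ k : ℕ, (if k ≤ 1 then 1 else θ) ∂ξ < ∫⁻ _ : ℕ, 1 ∂ξ := by
    have hle : ∀ k : ℕ, (if k ≤ 1 then 1 else θ) ≤ (1 : ENNReal) := by
      intro k
      split_ifs
      · exact le_rfl
      · exact hθ1.le
    refine lintegral_strict_mono_of_ae_le_of_ae_lt_on aemeasurable_const ?_
      (Filter.Eventually.of_forall hle) h2 (Filter.Eventually.of_forall ?_)
    · refine ne_top_of_le_ne_top ?_ (lintegral_mono hle)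
      simp
    · intro k hk
      have : ¬ k ≤ 1 := by
        have : 2 ≤ k := hk
        omega
      rw [if_neg this]
      exact hθ1
  rw [lintegral_const, measure_univ, mul_one] at h5
  have h6 : θ * ∫⁻ k : ℕ, (if k ≤ 1 then 1 else θ) ∂ξ < θ * 1 :=
    ENNReal.mul_lt_mul_right hne (ne_top_of_lt hθ1) h5
  rw [mul_one] at h6
  exact absurd (h3.trans h4) (not_le.2 h6)

end

section mono

theorem hb_mono (r n : ℕ) : ∀ ζ ζ' : Fld, (∀ u, (ζ u).1 = (ζ' u).1) →
    (∀ u, (ζ u).2 = true → (ζ' u).2 = true) → ζ' ∈ hb r n → ζ ∈ hb r n := by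
  classical
  induction n with
  | zero =>
    intro ζ ζ' h1 h2 h3
    have h4 : (ζ' []).2 = false := h3
    show (ζ []).2 = false
    by_contra h5
    rw [Bool.not_eq_false] at h5
    rw [h2 [] h5] at h4
    exact Bool.false_ne_true h4.symm
  | succ n ih =>
    intro ζ ζ' h1 h2 h3
    refine ⟨?_, lt_of_le_of_lt (Finset.card_le_card ?_) h3.2⟩
    · by_contra h5
      rw [Bool.not_eq_false] at h5
      have h4 := h3.1
      rw [h2 [] h5] at h4
      exact Bool.false_ne_true h4.symm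
    · intro i hi
      simp only [Finset.mem_filter] at hi ⊢
      refine ⟨h1 [] ▸ hi.1, fun h4 => hi.2 ?_⟩
      exact ih (sub ζ i) (sub ζ' i) (fun u => h1 _) (fun u => h2 _) h4

theorem H_mono (r : ℕ) (ζ ζ' : Fld) (h1 : ∀ u, (ζ u).1 = (ζ' u).1)
    (h2 : ∀ u, (ζ u).2 = true → (ζ' u).2 = true) (h : ζ' ∈ H r) : ζ ∈ H r :=
  Set.mem_iInter.2 fun n => hb_mono r n ζ ζ' h1 h2 (Set.mem_iInter.1 h n)

theorem K_mono (r : ℕ) (ζ ζ' : Fld) (h1 : ∀ u, (ζ u).1 = (ζ' u).1)
    (h2 : ∀ u, (ζ u).2 = true → (ζ' u).2 = true) (h : ζ' ∈ K r) : ζ ∈ K r := by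
  refine ⟨?_, fun i hi => ?_⟩
  · by_contra h5
    rw [Bool.not_eq_false] at h5
    have h4 := h.1
    rw [h2 [] h5] at h4
    exact Bool.false_ne_true h4.symm
  · exact H_mono r (sub ζ i) (sub ζ' i) (fun u => h1 _) (fun u => h2 _) (h.2 i (h1 [] ▸ hi))

theorem BB_mono (r : ℕ) (T : List ℕ → ℕ) (η η' : List ℕ → Bool)
    (h2 : ∀ u, η u = true → η' u = true) (h : (fun u => (T u, η u)) ∈ BB r) :
    (fun u => (T u, η' u)) ∈ BB r := by
  intro v hv hK
  exact h v hv (K_mono r (shift (fun u => (T u, η u)) v) (shift (fun u => (T u, η' u)) v)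
    (fun u => rfl) (fun u => h2 _) hK)

end mono

end N838.BT
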