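import Pool.Agent.N838.BT.Det
import Pool.Agent.N340.BT.ISO
import Pool.Agent.N704.BT.PAIR
import Pool.Agent.N865.BT.BIN

/-!
# Bootstrap percolation on trees: the recursion
-/

open MeasureTheory

namespace N838.BT

theorem lintegral_bern (p : unitInterval) (f : Bool → ENNReal) :
    ∫⁻ e, f e ∂(bern p) = ENNReal.ofReal (p : ℝ) * f true + ENNReal.ofReal (1 - (p : ℝ)) * f false := by
  unfold bern
  rw [lintegral_add_measure, lintegral_smul_measure, lintegral_smul_measure, lintegral_dirac,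
    lintegral_dirac, smul_eq_mul, smul_eq_mul]

section F

theorem F_bounds (k : ℕ) : ∀ (r : ℕ) (y : ℝ), 0 ≤ y → y ≤ 1 → 0 ≤ F r k y ∧ F r k y ≤ 1 := by
  induction k with
  | zero =>
    intro r y h0 h1
    cases r with
    | zero => simp [F]
    | succ r => simp [F]
  | succ k ih =>
    intro r y h0 h1
    cases r with
    | zero => simp [F]
    | succ r =>
      unfold F
      have h2 := ih (r + 1) y h0 h1
      have h3 := ih r y h0 h1
      constructor
      · have := mul_nonneg (sub_nonneg.2 h1) h2.1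
        have := mul_nonneg h0 h3.1
        linarith
      · nlinarith [h2.2, h3.2]

theorem F_le_succ (k : ℕ) : ∀ (r : ℕ) (y : ℝ), 0 ≤ y → y ≤ 1 → F r k y ≤ F (r + 1) k y := by
  induction k with
  | zero =>
    intro r y h0 h1
    cases r with
    | zero => simp [F]
    | succ r => simp [F]
  | succ k ih =>
    intro r y h0 h1
    cases r with
    | zero => exact (F_bounds (k + 1) 1 y h0 h1).1
    | succ r =>
      have h2 := ih (r + 1) y h0 h1
      have h3 := ih r y h0 h1
      have e1 : F (r + 1) (k + 1) y = (1 - y) * F (r + 1) k y + y * F r k y := rfl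
      have e2 : F (r + 2) (k + 1) y = (1 - y) * F (r + 2) k y + y * F (r + 1) k y := rfl
      rw [e1, e2]
      nlinarith

theorem F_anti (k : ℕ) : ∀ (r : ℕ) (y z : ℝ), 0 ≤ y → y ≤ z → z ≤ 1 → F r k z ≤ F r k y := by
  induction k with
  | zero =>
    intro r y z h0 h1 h2
    cases r with
    | zero => simp [F]
    | succ r => simp [F]
  | succ k ih =>
    intro r y z h0 h1 h2
    cases r with
    | zero => simp [F]
    | succ r =>
      have h3 := ih (r + 1) y z h0 h1 h2
      have h4 := ih r y z h0 h1 h2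
      have h5 := F_le_succ k r z (h0.trans h1) h2
      have e1 : ∀ y, F (r + 1) (k + 1) y = (1 - y) * F (r + 1) k y + y * F r k y := fun _ => rfl
      rw [e1, e1]
      nlinarith

theorem F_eq_one (k : ℕ) : ∀ (r : ℕ) (y : ℝ), k < r → F r k y = 1 := by
  induction k with
  | zero =>
    intro r y h
    cases r with
    | zero => omega
    | succ r => rfl
  | succ k ih =>
    intro r y h
    cases r with
    | zero => omega
    | succ r =>
      have e1 : F (r + 1) (k + 1) y = (1 - y) * F (r + 1) k y + y * F r k y := rfl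
      rw [e1, ih (r + 1) y (by omega), ih r y (by omega)]
      ring

end F

section meas

variable (ξ : Measure ℕ) [IsProbabilityMeasure ξ] (p : unitInterval)

/-- The law of the field of offspring numbers and initial infections. -/
noncomputable def PP : Measure Fld := Measure.infinitePi fun _ : List ℕ => ξ.prod (bern p)

instance : IsProbabilityMeasure (PP ξ p) := by unfold PP; infer_instance

/-- The law of the family of the fields below the children. -/
noncomputable def QQ : Measure (ℕ → Fld) := Measure.infinitePi fun _ : ℕ => PP ξ p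

instance : IsProbabilityMeasure (QQ ξ p) := by unfold QQ; infer_instance

/-- The value at the root and the fields below the children. -/
def dec (ζ : Fld) : (ℕ × Bool) × (ℕ → Fld) := (ζ [], sub ζ)

theorem measurable_dec : Measurable dec := by
  unfold dec
  refine Measurable.prodMk (measurable_pi_apply _) ?_
  refine measurable_pi_lambda _ fun i => ?_
  refine measurable_pi_lambda _ fun u => ?_
  exact measurable_pi_apply _

theorem map_dec : (PP ξ p).map dec = (ξ.prod (bern p)).prod (QQ ξ p) := by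
  have h := Pool.Agent.N340.BT.t_ISO (ℕ × Bool) (ξ.prod (bern p))
  exact h

theorem measurableSet_E (G : ℕ → Set (ℕ → Fld)) (hG : ∀ k, MeasurableSet (G k)) :
    MeasurableSet {z : (ℕ × Bool) × (ℕ → Fld) | z.1.2 = false ∧ z.2 ∈ G z.1.1} := by
  have h : {z : (ℕ × Bool) × (ℕ → Fld) | z.1.2 = false ∧ z.2 ∈ G z.1.1}
      = ⋃ k : ℕ, ({(k, false)} : Set (ℕ × Bool)) ×ˢ G k := by
    ext ⟨⟨k, e⟩, ω⟩
    simp only [Set.mem_ofPred_eq, Set.mem_iUnion, Set.mem_prod, Set.mem_singleton_iff,
      Prod.mk.injEq]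
    constructor
    · rintro ⟨h1, h2⟩
      exact ⟨k, ⟨rfl, h1⟩, h2⟩
    · rintro ⟨j, ⟨h1, h2⟩, h3⟩
      subst h1
      exact ⟨h2, h3⟩
  rw [h]
  exact MeasurableSet.iUnion fun k => (MeasurableSet.singleton _).prod (hG k)

theorem measurableSet_E' (G : ℕ → Set (ℕ → Fld)) (hG : ∀ k, MeasurableSet (G k)) :
    MeasurableSet {z : (ℕ × Bool) × (ℕ → Fld) | z.2 ∈ G z.1.1} := by
  have h : {z : (ℕ × Bool) × (ℕ → Fld) | z.2 ∈ G z.1.1}
      = ⋃ x : ℕ × Bool, ({x} : Set (ℕ × Bool)) ×ˢ G x.1 := by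
    ext ⟨⟨k, e⟩, ω⟩
    simp only [Set.mem_ofPred_eq, Set.mem_iUnion, Set.mem_prod, Set.mem_singleton_iff]
    constructor
    · intro h
      exact ⟨(k, e), rfl, h⟩
    · rintro ⟨j, h1, h2⟩
      subst h1
      exact h2
  rw [h]
  exact MeasurableSet.iUnion fun k => (MeasurableSet.singleton _).prod (hG _)

theorem split_false (G : ℕ → Set (ℕ → Fld)) (hG : ∀ k, MeasurableSet (G k)) :
    PP ξ p {ζ | (ζ []).2 = false ∧ sub ζ ∈ G (ζ []).1}
      = ENNReal.ofReal (1 - (p : ℝ)) * ∫⁻ k, QQ ξ p (G k) ∂ξ := by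
  have h1 : {ζ : Fld | (ζ []).2 = false ∧ sub ζ ∈ G (ζ []).1}
      = dec ⁻¹' {z : (ℕ × Bool) × (ℕ → Fld) | z.1.2 = false ∧ z.2 ∈ G z.1.1} := rfl
  rw [h1, ← Measure.map_apply measurable_dec (measurableSet_E G hG), map_dec,
    Measure.prod_apply (measurableSet_E G hG), lintegral_prod _ (Measurable.of_discrete).aemeasurable,
    ← lintegral_const_mul _ (Measurable.of_discrete)]
  refine lintegral_congr fun k => ?_
  rw [lintegral_bern]
  have h2 : (Prod.mk (k, true) ⁻¹' {z : (ℕ × Bool) × (ℕ → Fld) | z.1.2 = false ∧ z.2 ∈ G z.1.1})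
      = ∅ := by
    ext ω; simp
  have h3 : (Prod.mk (k, false) ⁻¹' {z : (ℕ × Bool) × (ℕ → Fld) | z.1.2 = false ∧ z.2 ∈ G z.1.1})
      = G k := by
    ext ω; simp
  rw [h2, h3, measure_empty, mul_zero, zero_add]

theorem split_all (G : ℕ → Set (ℕ → Fld)) (hG : ∀ k, MeasurableSet (G k)) :
    PP ξ p {ζ | sub ζ ∈ G (ζ []).1} = ∫⁻ k, QQ ξ p (G k) ∂ξ := by
  have h1 : {ζ : Fld | sub ζ ∈ G (ζ []).1}
      = dec ⁻¹' {z : (ℕ × Bool) × (ℕ → Fld) | z.2 ∈ G z.1.1} := rfl
  rw [h1, ← Measure.map_apply measurable_dec (measurableSet_E' G hG), map_dec,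
    Measure.prod_apply (measurableSet_E' G hG), lintegral_prod _ (Measurable.of_discrete).aemeasurable]
  refine lintegral_congr fun k => ?_
  rw [lintegral_bern]
  have h3 : ∀ e, (Prod.mk (k, e) ⁻¹' {z : (ℕ × Bool) × (ℕ → Fld) | z.2 ∈ G z.1.1}) = G k := by
    intro e
    ext ω; simp
  rw [h3, h3, ← add_mul, ← ENNReal.ofReal_add p.2.1 (by linarith [p.2.2])]
  simp

open Classical in
/-- Fewer than `r` of the first `k` fields are in `Bad`. -/
def GG (r : ℕ) (Bad : Set Fld) (k : ℕ) : Set (ℕ → Fld) :=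
  {ω | ((Finset.range k).filter fun i => ω i ∈ Bad).card < r}

theorem measurableSet_GG (r : ℕ) {Bad : Set Fld} (h : MeasurableSet Bad) (k : ℕ) :
    MeasurableSet (GG r Bad k) := by
  classical
  have h1 : Measurable fun ω : ℕ → Fld => ∑ i ∈ Finset.range k, if ω i ∈ Bad then 1 else 0 := by
    refine Finset.measurable_sum _ fun i _ => ?_
    refine Measurable.ite ?_ measurable_const measurable_const
    exact (measurable_pi_apply i) h
  have h2 : GG r Bad k = (fun ω : ℕ → Fld => ∑ i ∈ Finset.range k, if ω i ∈ Bad then 1 else 0) ⁻¹'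
      Set.Iio r := by
    ext ω
    unfold GG
    rw [Set.mem_ofPred_eq, Finset.card_filter]
    rfl
  rw [h2]
  exact h1 measurableSet_Iio

theorem hb_succ (r n : ℕ) :
    hb r (n + 1) = {ζ | (ζ []).2 = false ∧ sub ζ ∈ GG r (hb r n)ᶜ (ζ []).1} := by
  classical
  ext ζ
  constructor
  · rintro ⟨h1, h2⟩
    refine ⟨h1, lt_of_le_of_lt (Finset.card_le_card ?_) h2⟩
    intro i hi
    simp only [Finset.mem_filter] at hi ⊢
    exact hi
  · rintro ⟨h1, h2⟩
    refine ⟨h1, lt_of_le_of_lt (Finset.card_le_card ?_) h2⟩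
    intro i hi
    simp only [Finset.mem_filter] at hi ⊢
    exact hi

theorem measurableSet_hb (r n : ℕ) : MeasurableSet (hb r n) := by
  induction n with
  | zero =>
    have h : hb r 0 = (fun ζ : Fld => (ζ []).2) ⁻¹' {false} := rfl
    rw [h]
    exact (measurable_snd.comp (measurable_pi_apply _)) (MeasurableSet.singleton _)
  | succ n ih =>
    rw [hb_succ]
    exact measurable_dec (measurableSet_E (GG r (hb r n)ᶜ) fun k => measurableSet_GG r ih.compl k)

theorem measurableSet_H (r : ℕ) : MeasurableSet (H r) :=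
  MeasurableSet.iInter fun n => measurableSet_hb r n

theorem QQ_GG (r : ℕ) {Bad : Set Fld} (h : MeasurableSet Bad) (k : ℕ) :
    QQ ξ p (GG r Bad k) = ENNReal.ofReal (F r k ((PP ξ p).real Bad)) := by
  have h1 := Pool.Agent.N865.BT.t_BIN Fld (PP ξ p) Bad h r k
  rw [← h1, ofReal_measureReal]
  rfl

/-- The recursion for the probability that the root is not infected from below. -/
theorem PP_hb_succ (r n : ℕ) : PP ξ p (hb r (n + 1))
    = ENNReal.ofReal (1 - (p : ℝ)) *
      ∫⁻ k, ENNReal.ofReal (F r k (1 - (PP ξ p).real (hb r n))) ∂ξ := by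
  rw [hb_succ, split_false ξ p _ fun k => measurableSet_GG r (measurableSet_hb r n).compl k]
  congr 1
  refine lintegral_congr fun k => ?_
  rw [QQ_GG ξ p r (measurableSet_hb r n).compl, probReal_compl_eq_one_sub (measurableSet_hb r n)]

theorem PP_hb_zero (r : ℕ) : PP ξ p (hb r 0) = ENNReal.ofReal (1 - (p : ℝ)) := by
  have h := split_false ξ p (fun _ => Set.univ) (fun _ => MeasurableSet.univ)
  simp only [measure_univ, Set.mem_univ, and_true, lintegral_const, mul_one] at h
  exact h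

theorem PP_hb_ge (r : ℕ) (x : ℝ) (hx0 : 0 ≤ x) (hx1 : x ≤ 1)
    (hx : ENNReal.ofReal x ≤ ENNReal.ofReal (1 - (p : ℝ)) *
      ∫⁻ k, ENNReal.ofReal (F r k (1 - x)) ∂ξ) (n : ℕ) :
    ENNReal.ofReal x ≤ PP ξ p (hb r n) := by
  induction n with
  | zero =>
    rw [PP_hb_zero]
    refine hx.trans ?_
    have h1 : ∫⁻ k, ENNReal.ofReal (F r k (1 - x)) ∂ξ ≤ ∫⁻ _, 1 ∂ξ := by
      refine lintegral_mono fun k => ?_
      rw [← ENNReal.ofReal_one]
      exact ENNReal.ofReal_le_ofReal (F_bounds k r (1 - x) (by linarith) (by linarith)).2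
    rw [lintegral_const, measure_univ, mul_one] at h1
    calc ENNReal.ofReal (1 - (p : ℝ)) * ∫⁻ k, ENNReal.ofReal (F r k (1 - x)) ∂ξ
        ≤ ENNReal.ofReal (1 - (p : ℝ)) * 1 := by gcongr
      _ = _ := mul_one _
  | succ n ih =>
    rw [PP_hb_succ]
    refine hx.trans ?_
    have h2 : x ≤ (PP ξ p).real (hb r n) := by
      rw [measureReal_def]
      exact (ENNReal.ofReal_le_iff_le_toReal (measure_ne_top _ _)).1 ih
    have h3 : (PP ξ p).real (hb r n) ≤ 1 := measureReal_le_one
    gcongr with k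
    exact F_anti k r _ _ (by linarith) (by linarith) (by linarith)

theorem PP_H_ge (r : ℕ) (x : ℝ) (hx0 : 0 ≤ x) (hx1 : x ≤ 1)
    (hx : ENNReal.ofReal x ≤ ENNReal.ofReal (1 - (p : ℝ)) *
      ∫⁻ k, ENNReal.ofReal (F r k (1 - x)) ∂ξ) :
    ENNReal.ofReal x ≤ PP ξ p (H r) := by
  have h := tendsto_measure_iInter_atTop (μ := PP ξ p) (s := hb r)
    (fun n => (measurableSet_hb r n).nullMeasurableSet) (hb_antitone r) ⟨0, measure_ne_top _ _⟩
  exact ge_of_tendsto' h fun n => PP_hb_ge ξ p r x hx0 hx1 hx n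

end meas

end N838.BT
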