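import Mathlib

/-!
# Bootstrap percolation on Galton-Watson trees: statements of the parts
-/

open MeasureTheory

namespace N838.BT

/-- `F r k y = P(Bin(k, y) < r)`. -/
noncomputable def F : ℕ → ℕ → ℝ → ℝ
  | 0, _, _ => 0
  | _ + 1, 0, _ => 1
  | r + 1, k + 1, y => (1 - y) * F (r + 1) k y + y * F r k y

/-- The integral inequality (it is an equality for `m = ∞`, after subtraction of `m`). -/
def INT : Prop := ∀ (s k : ℕ) (m : ℝ), 1 ≤ m → s + 1 ≤ k →
  m - (k : ℝ) / (s + 1 : ℝ) ≤ ∫ y in (1 / m)..1, F (s + 2) k y / y ^ 2

/-- Splitting of an iid family indexed by words: the value at the empty word and the families below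
the letters are independent. -/
def ISO : Prop := ∀ (X : Type) [MeasurableSpace X] (ν : Measure X) [IsProbabilityMeasure ν],
  (Measure.infinitePi fun _ : List ℕ => ν).map
      (fun ζ => (ζ [], fun (i : ℕ) (u : List ℕ) => ζ (i :: u)))
    = ν.prod (Measure.infinitePi fun _ : ℕ => Measure.infinitePi fun _ : List ℕ => ν)

/-- An iid family of independent pairs is a pair of independent iid families. -/
def PAIR : Prop := ∀ (X Y : Type) [MeasurableSpace X] [MeasurableSpace Y] (μ : Measure X)
  [IsProbabilityMeasure μ] (ρ : Measure Y) [IsProbabilityMeasure ρ],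
  (Measure.infinitePi fun _ : List ℕ => μ.prod ρ).map
      (fun ζ => ((fun u => (ζ u).1), fun u => (ζ u).2))
    = (Measure.infinitePi fun _ : List ℕ => μ).prod (Measure.infinitePi fun _ : List ℕ => ρ)

open Classical in
/-- The number of bad coordinates among the first `k` is binomial. -/
def BIN : Prop := ∀ (Ω : Type) [MeasurableSpace Ω] (P : Measure Ω) [IsProbabilityMeasure P]
  (Bad : Set Ω), MeasurableSet Bad → ∀ r k : ℕ,
  (Measure.infinitePi fun _ : ℕ => P).real
      {ω | ((Finset.range k).filter fun i => ω i ∈ Bad).card < r} = F r k (P.real Bad)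

end N838.BT
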